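import Pool.Agent.H76.QE.Targets3

/-!
# Board qd_modules, module GO2: the main theorem of the density part, with the bound for the violated
# part (helper68)

Adapted from `Pool.Agent.H39.QD.pf_GOO` (helper39).
-/

set_option autoImplicit false

namespace Pool.Agent.H68.QD

open Finset Pool.Agent.H76.QE
open Pool.Agent.H1.LP (supp ip comb kk S_DISP S_COL S_SMALL)
open H43.PS (PosDeg Low av)
open Pool.Agent.H73.OX (ch)

theorem av_add {X : Type} [Fintype X] [Nonempty X] (f : X → ℝ) (β : ℝ) :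
    av (fun z => (1 + β)⁻¹ * (f z + β)) = (1 + β)⁻¹ * (av f + β) := by
  unfold av
  have hc : (Fintype.card X : ℝ) ≠ 0 := by
    exact_mod_cast Fintype.card_ne_zero
  rw [← mul_sum, sum_add_distrib, sum_const, nsmul_eq_mul, card_univ]
  field_simp

open Classical in
theorem good_core (hN : T_CNT) (hZ : T_DZP) (hK : T_KFB) (hP : T_POS) (hL : T_LVQ)
    (p R N E k u h : ℕ)
    [Fact p.Prime] (hE : 2 ≤ E) (hu : 1 ≤ u) (hp2 : 2 < p) (T : Fin R → Finset (Fin N))
    (A : Fin (R + R) → Fin N → ZMod p) (b : Fin (R + R) → ZMod p) (hT : ∀ i, (T i).card = k)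
    (hloc : ∀ i z z', (∀ j ∈ T i, z j = z' j) → (Bad A b i z ↔ Bad A b i z'))
    (hsat : ∀ (z : Fin N → ZMod p) (B : Finset (Fin R)), (∀ i, i ∈ B ↔ Bad A b i z) →
      R ≤ B.card + 3 * N)
    (hI : Indp A (256 * E * u)) (hNS : NoStar A E h u (256 * E * u))
    (h2R : 2 ^ (R + R) ≤ p ^ u) (hτN : 120 * E * u + u ≤ N) (h3 : 3 * E * N ≤ R)
    (h4 : 4 * E * 4 ^ N ≤ p ^ (2 * u)) :
    Good2 p N R k h (1 - 1 / (E : ℝ)) (((4 : ℝ) ^ N)⁻¹) := by
  have hEu : 1 ≤ E * u := Nat.one_le_iff_ne_zero.2 (by positivity)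
  have hp0 : (0 : ℝ) < p := by
    have : 0 < p := by omega
    exact_mod_cast this
  have hp1 : (1 : ℝ) ≤ p := by
    have : 1 ≤ p := by omega
    exact_mod_cast this
  obtain ⟨hD1, hD2, hD3⟩ := hZ p R N (120 * E * u) (256 * E * u) A b hI
    (by nlinarith) (by nlinarith)
  -- the correction
  set n0 : ℕ := 2 * E * (CC p (R + R) u).card with hn0
  set β : ℝ := (n0 : ℝ) / (p : ℝ) ^ (4 * u) with hβ
  have hβ0 : 0 ≤ β := by positivity
  have h1β : 0 < 1 + β := by linarith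
  have hβle2 : 2 * β ≤ ((4 : ℝ) ^ N)⁻¹ := by
    have e1 : n0 ≤ 2 * E * (p ^ u * p ^ u) := by
      rw [hn0]
      have := hN p (R + R) u
      calc 2 * E * (CC p (R + R) u).card ≤ 2 * E * (2 ^ (R + R) * p ^ u) :=
            Nat.mul_le_mul_left _ this
        _ ≤ 2 * E * (p ^ u * p ^ u) := Nat.mul_le_mul_left _ (Nat.mul_le_mul_right _ h2R)
    have e2 : 2 * n0 * 4 ^ N ≤ p ^ (4 * u) := by
      calc 2 * n0 * 4 ^ N ≤ 2 * (2 * E * (p ^ u * p ^ u)) * 4 ^ N :=
            Nat.mul_le_mul_right _ (Nat.mul_le_mul_left _ e1)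
        _ = (4 * E * 4 ^ N) * p ^ (2 * u) := by ring
        _ ≤ p ^ (2 * u) * p ^ (2 * u) := Nat.mul_le_mul_right _ h4
        _ = p ^ (4 * u) := by ring
    have e3 : 2 * (n0 : ℝ) * 4 ^ N ≤ (p : ℝ) ^ (4 * u) := by exact_mod_cast e2
    rw [hβ, ← mul_div_assoc, div_le_iff₀ (by positivity), inv_mul_eq_div,
      le_div_iff₀ (by positivity)]
    exact e3
  have hβle : β ≤ ((4 : ℝ) ^ N)⁻¹ := by linarith
  have hKF : ∀ C : Fin (R + R) → ZMod p, 16 * u < (supp C).card →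
      ‖KF b C‖ * (2 * E * (CC p (R + R) u).card) ≤ β := by
    intro C hC
    have e1 := hK p R hp2 b C
    have e2 : ‖KF b C‖ ^ 4 * (p : ℝ) ^ (16 * u) ≤ 1 := by
      refine le_trans (mul_le_mul_of_nonneg_left ?_ (by positivity)) e1
      exact pow_le_pow_right₀ hp1 hC.le
    have e3 : (‖KF b C‖ * (p : ℝ) ^ (4 * u)) ^ 4 ≤ 1 := by
      calc (‖KF b C‖ * (p : ℝ) ^ (4 * u)) ^ 4 = ‖KF b C‖ ^ 4 * (p : ℝ) ^ (16 * u) := by ring
        _ ≤ 1 := e2
    have e4 : ‖KF b C‖ * (p : ℝ) ^ (4 * u) ≤ 1 := by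
      by_contra hcon
      have := one_lt_pow₀ (not_le.1 hcon) (n := 4) (by norm_num)
      linarith
    have e5 : ‖KF b C‖ ≤ 1 / (p : ℝ) ^ (4 * u) := by
      rw [le_div_iff₀ (by positivity)]
      exact e4
    have e6 : ((2 : ℝ) * E * (CC p (R + R) u).card) = (n0 : ℝ) := by
      rw [hn0]
      push_cast
      ring
    rw [e6, hβ]
    calc ‖KF b C‖ * (n0 : ℝ) ≤ 1 / (p : ℝ) ^ (4 * u) * n0 :=
          mul_le_mul_of_nonneg_right e5 (Nat.cast_nonneg _)
      _ = (n0 : ℝ) / (p : ℝ) ^ (4 * u) := by ring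
  have hpos : PosDeg h (fun z => D0 A (120 * E * u) b z + β) :=
    hP p R N E h u (16 * u) (120 * E * u) (256 * E * u) A b β (by omega) hβ0 hI hNS (by omega)
      (by nlinarith) (by nlinarith) (by nlinarith) hKF
  refine ⟨T, fun i z => Bad A b i z,
    fun z => (1 + β)⁻¹ * (D0 A (120 * E * u) b z + β), hT, hloc, ?_, ?_, ?_, ?_, ?_, ?_⟩
  · intro z
    have e1 := hsat z (univ.filter (fun i => Bad A b i z)) (fun i => by simp)
    have e2 : (R : ℝ) ≤ ((univ.filter (fun i => Bad A b i z)).card : ℝ) + 3 * N := by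
      exact_mod_cast e1
    have e3 : (3 : ℝ) * E * N ≤ R := by exact_mod_cast h3
    have hE0 : (0 : ℝ) < E := by
      have : 0 < E := by omega
      exact_mod_cast this
    have e4 : (3 : ℝ) * N ≤ R / E := by
      rw [le_div_iff₀ hE0]
      linarith
    have e5 : (1 - 1 / (E : ℝ)) * R = R - R / E := by ring
    show (1 - 1 / (E : ℝ)) * R ≤ ((univ.filter (fun i => Bad A b i z)).card : ℝ)
    rw [e5]
    linarith
  · intro z
    have e1 : |D0 A (120 * E * u) b z| ≤ (p : ℝ) ^ N := by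
      refine (hD1 z).trans ?_
      have e2 : (2 : ℝ) ^ (R + R) ≤ (p : ℝ) ^ u := by exact_mod_cast h2R
      calc (2 : ℝ) ^ (R + R) * (p : ℝ) ^ (120 * E * u)
          ≤ (p : ℝ) ^ u * (p : ℝ) ^ (120 * E * u) :=
            mul_le_mul_of_nonneg_right e2 (by positivity)
        _ = (p : ℝ) ^ (120 * E * u + u) := by rw [← pow_add, Nat.add_comm]
        _ ≤ (p : ℝ) ^ N := pow_le_pow_right₀ hp1 hτN
    have e3 : (1 : ℝ) ≤ (p : ℝ) ^ N := one_le_pow₀ hp1
    show |(1 + β)⁻¹ * (D0 A (120 * E * u) b z + β)| ≤ (p : ℝ) ^ N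
    rw [abs_mul, abs_of_nonneg (inv_nonneg.2 h1β.le), inv_mul_eq_div, div_le_iff₀ h1β]
    calc |D0 A (120 * E * u) b z + β| ≤ |D0 A (120 * E * u) b z| + |β| := abs_add_le _ _
      _ ≤ (p : ℝ) ^ N + (p : ℝ) ^ N * β := by
          rw [abs_of_nonneg hβ0]
          nlinarith
      _ = (p : ℝ) ^ N * (1 + β) := by ring
  · intro f hf
    have e1 := hpos f hf
    have e2 : ∑ z, (1 + β)⁻¹ * (D0 A (120 * E * u) b z + β) * f z ^ 2 =
        (1 + β)⁻¹ * ∑ z, (D0 A (120 * E * u) b z + β) * f z ^ 2 := by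
      rw [mul_sum]
      exact sum_congr rfl (fun z _ => by ring)
    show 0 ≤ ∑ z, (1 + β)⁻¹ * (D0 A (120 * E * u) b z + β) * f z ^ 2
    rw [e2]
    exact mul_nonneg (inv_nonneg.2 h1β.le) e1
  · have e1 := av_add (D0 A (120 * E * u) b) β
    rw [hD2] at e1
    show av (fun z => (1 + β)⁻¹ * (D0 A (120 * E * u) b z + β)) = 1
    rw [e1]
    exact inv_mul_cancel₀ h1β.ne'
  · intro i
    have hB := hD3 i (univ.filter (fun z => Bad A b i z)) (fun z => by simp)
    have hcX : (0 : ℝ) < (Fintype.card (Fin N → ZMod p) : ℝ) := by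
      exact_mod_cast Fintype.card_pos
    have e1 : av (fun z => if Bad A b i z then (1 + β)⁻¹ * (D0 A (120 * E * u) b z + β) else 0) =
        (1 + β)⁻¹ * β * (((univ.filter (fun z => Bad A b i z)).card : ℝ) /
          (Fintype.card (Fin N → ZMod p) : ℝ)) := by
      unfold av
      rw [← sum_filter, ← mul_sum, sum_add_distrib, hB, sum_const, nsmul_eq_mul]
      ring
    have hcB : ((univ.filter (fun z => Bad A b i z)).card : ℝ) ≤
        (Fintype.card (Fin N → ZMod p) : ℝ) := by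
      exact_mod_cast card_le_univ _
    have hq0 : 0 ≤ ((univ.filter (fun z => Bad A b i z)).card : ℝ) /
        (Fintype.card (Fin N → ZMod p) : ℝ) := by positivity
    have hq1 : ((univ.filter (fun z => Bad A b i z)).card : ℝ) /
        (Fintype.card (Fin N → ZMod p) : ℝ) ≤ 1 := (div_le_one hcX).2 hcB
    have hi0 : 0 ≤ (1 + β)⁻¹ := inv_nonneg.2 h1β.le
    have hi1 : (1 + β)⁻¹ ≤ 1 := inv_le_one_of_one_le₀ (by linarith)
    show 0 ≤ av (fun z => if Bad A b i z then (1 + β)⁻¹ * (D0 A (120 * E * u) b z + β) else 0) ∧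
      av (fun z => if Bad A b i z then (1 + β)⁻¹ * (D0 A (120 * E * u) b z + β) else 0) ≤
        ((4 : ℝ) ^ N)⁻¹
    rw [e1]
    refine ⟨by positivity, le_trans ?_ hβle⟩
    have e2 : (1 + β)⁻¹ * β ≤ β := by nlinarith
    have e3 : 0 ≤ (1 + β)⁻¹ * β := by positivity
    nlinarith

  · intro i f hf
    set S : ℝ := ∑ z, f z ^ 2 with hS
    have hS0 : 0 ≤ S := sum_nonneg fun z _ => sq_nonneg _
    have hγ : (p : ℝ) ^ 10 ≤ (1 / (p : ℝ) ^ (5 * u)) ^ 4 * (p : ℝ) ^ (120 * E * u - 2) := by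
      rw [div_pow, one_pow, one_div, ← pow_mul, inv_mul_eq_div, le_div_iff₀ (by positivity),
        ← pow_add]
      refine pow_le_pow_right₀ hp1 ?_
      have e1 : 240 * u ≤ 120 * E * u := Nat.mul_le_mul_right _ (by omega)
      omega
    have hlv := hL p R N E h u (120 * E * u) (256 * E * u) A b i (1 / (p : ℝ) ^ (5 * u)) hp2
      (by omega) hNS (by nlinarith) (by nlinarith) (by positivity) hγ
      (univ.filter (fun z => Bad A b i z)) (fun z => by simp) f hf
    have e6 : ((2 : ℝ) * E * (CC p (R + R) u).card) = (n0 : ℝ) := by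
      rw [hn0]
      push_cast
      ring
    rw [e6] at hlv
    have hlv2 : ∑ z ∈ univ.filter (fun z => Bad A b i z), D0 A (120 * E * u) b z * f z ^ 2 ≤
        β * S := by
      refine (le_abs_self _).trans (hlv.trans ?_)
      refine mul_le_mul_of_nonneg_right ?_ hS0
      rw [hβ, mul_one_div]
      refine div_le_div_of_nonneg_left (Nat.cast_nonneg _) (by positivity) ?_
      exact pow_le_pow_right₀ hp1 (by omega)
    have hBS : ∑ z ∈ univ.filter (fun z => Bad A b i z), f z ^ 2 ≤ S :=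
      sum_le_sum_of_subset_of_nonneg (filter_subset _ _) fun z _ _ => sq_nonneg _
    have e1 : ∑ z, (((4 : ℝ) ^ N)⁻¹ - if Bad A b i z then
        (1 + β)⁻¹ * (D0 A (120 * E * u) b z + β) else 0) * f z ^ 2 =
        ((4 : ℝ) ^ N)⁻¹ * S - (1 + β)⁻¹ *
          (∑ z ∈ univ.filter (fun z => Bad A b i z), D0 A (120 * E * u) b z * f z ^ 2 +
            β * ∑ z ∈ univ.filter (fun z => Bad A b i z), f z ^ 2) := by
      rw [hS, mul_sum, mul_sum, ← sum_add_distrib, mul_sum, sum_filter, ← sum_sub_distrib]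
      refine sum_congr rfl fun z _ => ?_
      split_ifs
      · ring
      · ring
    show 0 ≤ ∑ z, (((4 : ℝ) ^ N)⁻¹ - if Bad A b i z then
        (1 + β)⁻¹ * (D0 A (120 * E * u) b z + β) else 0) * f z ^ 2
    rw [e1]
    have hi0 : 0 ≤ (1 + β)⁻¹ := inv_nonneg.2 h1β.le
    have hi1 : (1 + β)⁻¹ ≤ 1 := inv_le_one_of_one_le₀ (by linarith)
    have e2 : ∑ z ∈ univ.filter (fun z => Bad A b i z), D0 A (120 * E * u) b z * f z ^ 2 +
        β * ∑ z ∈ univ.filter (fun z => Bad A b i z), f z ^ 2 ≤ 2 * β * S := by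
      have := mul_le_mul_of_nonneg_left hBS hβ0
      linarith
    have e3 := mul_le_mul_of_nonneg_left e2 hi0
    have e4 : (1 + β)⁻¹ * (2 * β * S) ≤ 1 * (2 * β * S) :=
      mul_le_mul_of_nonneg_right hi1 (by positivity)
    have e5 := mul_le_mul_of_nonneg_right hβle2 hS0
    linarith

theorem pf_GO2 (hN : T_CNT) (hZ : T_DZP) (hK : T_KFB) (hP : T_POS) (hS : T_SYQ)
    (hL : T_LVQ) : T_GO2 := by
  intro E hE
  obtain ⟨w, hw⟩ : ∃ w : ℕ, w = 4096 * E ^ 3 := ⟨_, rfl⟩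
  have hE3 : E ≤ E ^ 3 := Nat.le_self_pow (by norm_num) E
  have hwE : 4096 * E ≤ w := by
    rw [hw]
    exact Nat.mul_le_mul_left _ hE3
  have hw1 : 1 ≤ w := by omega
  have hw2 : w ≤ w ^ 2 := Nat.le_self_pow (by norm_num) w
  obtain ⟨p, hpp, hp1, hp2⟩ := Nat.exists_prime_lt_and_le_two_mul (2 ^ (5 * w ^ 2))
    (by positivity)
  have hpf : Fact p.Prime := ⟨hpp⟩
  have hkk : 1 ≤ kk w := by
    unfold kk
    have : 0 < 2 * (4 * w + 1) * w ^ 2 := by positivity
    exact this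
  refine ⟨5 * w ^ 2, w, w * w, 2 * kk w, p, hpf, by omega, hw1, ?_, by omega, hp1, ?_, ?_⟩
  · exact Nat.one_le_iff_ne_zero.2 (by positivity)
  · rw [pow_succ]
    omega
  · intro u hu
    have hu1 : 1 ≤ u := by omega
    obtain ⟨T, A, b, hT, hloc, hsat, hI, hNS⟩ := hS E w u p (by omega) hw hu hp1
    rw [Nat.mul_assoc w w u]
    have hpu : 2 ^ (5 * w ^ 2 * u) ≤ p ^ u := by
      rw [pow_mul]
      exact Nat.pow_le_pow_left hp1.le u
    have hpos2 : 1 ≤ p ^ u := Nat.one_le_pow _ _ hpp.pos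
    refine good_core hN hZ hK hP hL p (w * (w * u)) (w * u) E (2 * kk w) u (w * u - w * u / E) hE hu1
      ?_ T A b hT hloc hsat hI hNS ?_ ?_ ?_ ?_
    · have : 2 ^ 1 ≤ 2 ^ (5 * w ^ 2) := Nat.pow_le_pow_right (by norm_num) (by omega)
      omega
    · refine le_trans (Nat.pow_le_pow_right (by norm_num) ?_) hpu
      nlinarith
    · nlinarith
    · have : 3 * E ≤ w := by omega
      calc 3 * E * (w * u) ≤ w * (w * u) := Nat.mul_le_mul_right _ this
        _ = w * (w * u) := rfl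
    · have e1 : 4 * E ≤ 2 ^ (w * u) := by
        have e2 : 4 * E ≤ w * u := by nlinarith
        exact e2.trans (Nat.lt_two_pow_self).le
      have e3 : 4 * E * 4 ^ (w * u) ≤ 2 ^ (5 * w ^ 2 * u) := by
        calc 4 * E * 4 ^ (w * u) ≤ 2 ^ (w * u) * 4 ^ (w * u) := Nat.mul_le_mul_right _ e1
          _ = 2 ^ (3 * (w * u)) := by
            have : (4 : ℕ) = 2 ^ 2 := by norm_num
            rw [this, ← pow_mul, ← pow_add]
            congr 1
            ring
          _ ≤ 2 ^ (5 * w ^ 2 * u) := by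
            refine Nat.pow_le_pow_right (by norm_num) ?_
            nlinarith
      calc 4 * E * 4 ^ (w * u) ≤ p ^ u := e3.trans hpu
        _ = p ^ u * 1 := (Nat.mul_one _).symm
        _ ≤ p ^ u * p ^ u := Nat.mul_le_mul_left _ hpos2
        _ = p ^ (2 * u) := by ring

end Pool.Agent.H68.QD
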